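import Pool.Agent.Helper83_DPB.Stmts

/-!
Squad DPB (MP_e2cf1f_an), module GZ: the Grothendieck property of the spaces `PA P Q` along
disjoint indicators, by an almost disjoint family.
-/

open Filter Topology Set

namespace Pool.Agent.Helper83_DPB.H38

section Gen
variable {Ω A : Type} [NormedAddCommGroup A] [NormedSpace ℂ A]

theorem phase (z : ℂ) : ∃ θ : ℂ, ‖θ‖ ≤ 1 ∧ θ * z = ((‖z‖ : ℝ) : ℂ) := by
  by_cases hz : z = 0
  · exact ⟨0, by simp, by simp [hz]⟩
  · have hn : ‖z‖ ≠ 0 := norm_ne_zero_iff.2 hz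
    refine ⟨((‖z‖ : ℝ) : ℂ) / z, ?_, ?_⟩
    · rw [norm_div, Complex.norm_real, norm_norm, div_self hn]
    · exact div_mul_cancel₀ _ hz

theorem sum_disj {κ : Type*} (S : BFS Ω A) (f : A →L[ℂ] ℂ) (s : Finset κ) (y : κ → A)
    (h1 : ∀ i ∈ s, ∀ t, ‖S.ev (y i) t‖ ≤ 1)
    (h2 : ∀ i ∈ s, ∀ j ∈ s, i ≠ j → ∀ t, S.ev (y i) t = 0 ∨ S.ev (y j) t = 0) :
    ∑ i ∈ s, ‖f (y i)‖ ≤ ‖f‖ := by
  classical
  choose θ hθ1 hθ2 using phase
  set z : A := ∑ i ∈ s, θ (f (y i)) • y i with hzdef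
  have hz : ‖z‖ ≤ 1 := by
    refine S.le_ev z 1 zero_le_one fun t => ?_
    have hsum : S.ev z t = ∑ i ∈ s, θ (f (y i)) * S.ev (y i) t := by
      simp [hzdef, map_sum, Finset.sum_apply]
    rw [hsum]
    by_cases h : ∃ i ∈ s, S.ev (y i) t ≠ 0
    · obtain ⟨i, hi, hne⟩ := h
      rw [Finset.sum_eq_single_of_mem i hi]
      · rw [norm_mul]
        exact mul_le_one₀ (hθ1 _) (norm_nonneg _) (h1 i hi t)
      · intro j hj hji
        rcases h2 j hj i hi hji t with h | h
        · rw [h, mul_zero]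
        · exact absurd h hne
    · push Not at h
      rw [Finset.sum_eq_zero (fun i hi => by rw [h i hi, mul_zero])]
      simp
  have hfz : f z = ((∑ i ∈ s, ‖f (y i)‖ : ℝ) : ℂ) := by
    rw [hzdef, map_sum]
    push_cast
    refine Finset.sum_congr rfl fun i _ => ?_
    rw [map_smul, smul_eq_mul, hθ2]
  calc ∑ i ∈ s, ‖f (y i)‖ = ‖f z‖ := by
        rw [hfz, Complex.norm_real, Real.norm_of_nonneg (Finset.sum_nonneg fun _ _ => norm_nonneg _)]
    _ ≤ ‖f‖ * ‖z‖ := f.le_opNorm z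
    _ ≤ ‖f‖ * 1 := by gcongr
    _ = ‖f‖ := mul_one _

end Gen

/-- gliding hump -/
theorem hump (a : ℕ → ℕ → ℝ) (h0 : ∀ k n, 0 ≤ a k n) (C : ℕ → ℝ)
    (hs : ∀ k (F : Finset ℕ), ∑ n ∈ F, a k n ≤ C k)
    (ht : ∀ n, Tendsto (fun k => a k n) atTop (𝓝 0)) (N : Set ℕ) (hN : N.Infinite) (ε : ℝ)
    (hε : 0 < ε) :
    ∃ κ : ℕ → ℕ, StrictMono κ ∧ (∀ i, κ i ∈ N) ∧
      ∀ i, ∀ F : Finset ℕ, i ∉ F → ∑ j ∈ F, a (κ i) (κ j) ≤ ε / 2 := by
  classical
  have htail : ∀ p, ∃ K : ℕ, ∀ F : Finset ℕ, (∀ n ∈ F, K ≤ n) → ∑ n ∈ F, a p n ≤ ε / 4 := by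
    intro p
    have hsum : Summable (a p) := summable_of_sum_le (h0 p) (hs p)
    obtain ⟨s, hs'⟩ := (summable_iff_vanishing_norm).1 hsum (ε / 4) (by positivity)
    refine ⟨s.sup id + 1, fun F hF => ?_⟩
    have hd : Disjoint F s := by
      rw [Finset.disjoint_left]
      intro n hn hns
      have h1 := hF n hn
      have h2 : n ≤ s.sup id := Finset.le_sup (f := id) hns
      omega
    exact (le_abs_self _).trans (hs' F hd).le
  choose K hK using htail
  have hhead : ∀ p, ∀ᶠ q in atTop, ∑ n ∈ Finset.range (p + 1), a q n ≤ ε / 4 := by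
    intro p
    have h1 : Tendsto (fun q => ∑ n ∈ Finset.range (p + 1), a q n) atTop (𝓝 0) := by
      have := tendsto_finsetSum (Finset.range (p + 1)) (fun n _ => ht n)
      simpa using this
    exact (h1.eventually_lt_const (show (0 : ℝ) < ε / 4 by positivity)).mono fun q hq => hq.le
  have hstep : ∀ p, ∃ q, p < q ∧ q ∈ N ∧ K p ≤ q ∧ ∑ n ∈ Finset.range (p + 1), a q n ≤ ε / 4 := by
    intro p
    obtain ⟨q0, hq0⟩ := eventually_atTop.1 (hhead p)
    obtain ⟨q, hqN, hq⟩ := hN.exists_gt (max p (max (K p) q0))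
    refine ⟨q, ?_, hqN, ?_, hq0 q ?_⟩
    · exact (le_max_left _ _).trans_lt hq
    · exact ((le_max_left _ _).trans (le_max_right _ _)).trans hq.le
    · exact ((le_max_right _ _).trans (le_max_right _ _)).trans hq.le
  choose g hg1 hg2 hg3 hg4 using hstep
  let κ : ℕ → ℕ := fun i => Nat.rec (g 0) (fun _ r => g r) i
  have hκs : ∀ i, κ (i + 1) = g (κ i) := fun i => rfl
  have hmono : StrictMono κ := strictMono_nat_of_lt_succ fun i => by rw [hκs]; exact hg1 _
  refine ⟨κ, hmono, ?_, ?_⟩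
  · intro i
    cases i with
    | zero => exact hg2 0
    | succ i => rw [hκs]; exact hg2 _
  · intro i F hi
    have hinj : ∀ G : Finset ℕ, ∑ j ∈ G, a (κ i) (κ j) = ∑ n ∈ G.image κ, a (κ i) n := by
      intro G
      rw [Finset.sum_image (fun x _ y _ h => hmono.injective h)]
    have hsplit : ∑ j ∈ F, a (κ i) (κ j) =
        ∑ j ∈ F.filter (· < i), a (κ i) (κ j) + ∑ j ∈ F.filter (¬ · < i), a (κ i) (κ j) :=
      (Finset.sum_filter_add_sum_filter_not F _ _).symm
    have h1 : ∑ j ∈ F.filter (· < i), a (κ i) (κ j) ≤ ε / 4 := by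
      rw [hinj]
      cases i with
      | zero =>
        have : (F.filter (· < 0)).image κ = ∅ := by
          simp
        rw [this, Finset.sum_empty]
        positivity
      | succ i =>
        refine (Finset.sum_le_sum_of_subset_of_nonneg ?_ (fun _ _ _ => h0 _ _)).trans
          (show ∑ n ∈ Finset.range (κ i + 1), a (κ (i + 1)) n ≤ ε / 4 by rw [hκs]; exact hg4 _)
        intro n hn
        obtain ⟨j, hj, rfl⟩ := Finset.mem_image.1 hn
        rw [Finset.mem_range]
        have hji : j ≤ i := Nat.lt_succ_iff.1 (Finset.mem_filter.1 hj).2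
        exact Nat.lt_succ_of_le (hmono.monotone hji)
    have h2 : ∑ j ∈ F.filter (¬ · < i), a (κ i) (κ j) ≤ ε / 4 := by
      rw [hinj]
      refine hK _ _ fun n hn => ?_
      obtain ⟨j, hj, rfl⟩ := Finset.mem_image.1 hn
      obtain ⟨hjF, hji⟩ := Finset.mem_filter.1 hj
      have hne : j ≠ i := fun h => hi (h ▸ hjF)
      have hlt : i + 1 ≤ j := by omega
      have := hmono.monotone hlt
      rw [hκs] at this
      exact (hg3 _).trans this
    rw [hsplit]
    linarith

/-- an almost disjoint family -/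
def Mx (x : ℕ → Bool) : Set ℕ :=
  Set.range (fun n : ℕ => Encodable.encode (List.ofFn (fun i : Fin n => x i)))

theorem Mx_inj (x : ℕ → Bool) :
    Function.Injective (fun n : ℕ => Encodable.encode (List.ofFn (fun i : Fin n => x i))) := by
  intro n m h
  have h1 := Encodable.encode_injective h
  have h2 := congrArg List.length h1
  simpa using h2

theorem Mx_inf (x : ℕ → Bool) : (Mx x).Infinite := Set.infinite_range_of_injective (Mx_inj x)

theorem Mx_ad (x y : ℕ → Bool) (h : x ≠ y) : (Mx x ∩ Mx y).Finite := by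
  classical
  obtain ⟨k, hk⟩ := Function.ne_iff.1 h
  refine ((Finset.range (k + 1)).image
    (fun n : ℕ => Encodable.encode (List.ofFn (fun i : Fin n => x i)))).finite_toSet.subset ?_
  rintro _ ⟨⟨n, rfl⟩, m, hm⟩
  simp only [Finset.coe_image, Finset.coe_range, Set.mem_image, Set.mem_Iio]
  have h1 : List.ofFn (fun i : Fin m => y i) = List.ofFn (fun i : Fin n => x i) :=
    Encodable.encode_injective hm
  have h2 := congrArg List.length h1
  simp only [List.length_ofFn] at h2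
  subst h2
  refine ⟨m, ?_, rfl⟩
  by_contra hlt
  have hkm : k < m := by omega
  have h3 := List.ofFn_injective h1
  have h4 := congrFun h3 ⟨k, hkm⟩
  exact hk h4.symm

instance : Uncountable (ℕ → Bool) := by
  rw [uncountable_iff_not_countable]
  intro h
  obtain ⟨f, hf⟩ := (countable_iff_exists_injective (ℕ → Bool)).1 h
  classical
  have h2 : Function.Injective (fun s : Set ℕ => f (fun n => decide (n ∈ s))) := by
    intro s t hst
    have h3 := hf hst
    ext n
    have h4 := congrFun h3 n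
    simpa using h4
  exact Function.cantor_injective _ h2

section Core
variable {Ω A : Type} [NormedAddCommGroup A] [NormedSpace ℂ A]

/-- the sum of the defects -/
theorem defect (S : BFS Ω A) (f : A →L[ℂ] ℂ) (b : ℕ → Set Ω) (e : ℕ → A)
    (hd : ∀ m n, m ≠ n → Disjoint (b m) (b n))
    (he : ∀ n t, S.ev (e n) t = (b n).indicator (fun _ => (1 : ℂ)) t)
    (E : (ℕ → Bool) → A) (X : Finset (ℕ → Bool))
    (hE : ∀ x ∈ X, ∀ t, S.ev (E x) t = (⋃ n ∈ Mx x, b n).indicator (fun _ => (1 : ℂ)) t) :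
    ∑ x ∈ X, ‖f (E x) - ∑' n, (Mx x).indicator (fun n => f (e n)) n‖ ≤ ‖f‖ := by
  classical
  have hsumle : ∀ F : Finset ℕ, ∑ n ∈ F, ‖f (e n)‖ ≤ ‖f‖ := by
    intro F
    refine sum_disj S f F e ?_ ?_
    · intro i _ t
      rw [he]
      by_cases h : t ∈ b i
      · rw [indicator_of_mem h, norm_one]
      · rw [indicator_of_notMem h, norm_zero]
        exact zero_le_one
    · intro i _ j _ hij t
      rw [he, he]
      by_cases h : t ∈ b i
      · right
        exact indicator_of_notMem (fun h' => (Set.disjoint_left.1 (hd i j hij)) h h') _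
      · left
        exact indicator_of_notMem h _
  have hsn : Summable (fun n => ‖f (e n)‖) := summable_of_sum_le (fun _ => norm_nonneg _) hsumle
  have hs : Summable (fun n => f (e n)) := hsn.of_norm
  refine le_of_forall_pos_le_add fun ε hε => ?_
  set η : ℝ := ε / (X.card + 1) with hη
  have hηpos : 0 < η := by positivity
  obtain ⟨s, hs'⟩ := (summable_iff_vanishing_norm).1 hsn η hηpos
  have hFfin : (⋃ x ∈ X, ⋃ y ∈ X, ⋃ (_ : x ≠ y), (Mx x ∩ Mx y)).Finite := by
    refine Set.Finite.biUnion X.finite_toSet fun x _ => ?_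
    refine Set.Finite.biUnion X.finite_toSet fun y _ => ?_
    by_cases h : x = y
    · simp [h]
    · refine (Mx_ad x y h).subset ?_
      exact Set.iUnion_subset fun _ => subset_rfl
  set F0 : Finset ℕ := hFfin.toFinset ∪ s with hF0
  have hF0pair : ∀ x ∈ X, ∀ y ∈ X, x ≠ y → ∀ n, n ∈ Mx x → n ∈ Mx y → n ∈ F0 := by
    intro x hx y hy hxy n hnx hny
    rw [hF0, Finset.mem_union]
    left
    rw [Set.Finite.mem_toFinset]
    simp only [Set.mem_iUnion]
    exact ⟨x, hx, y, hy, hxy, hnx, hny⟩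
  set D : (ℕ → Bool) → A := fun x => E x - ∑ n ∈ F0.filter (· ∈ Mx x), e n with hD
  have hDev : ∀ x ∈ X, ∀ t, ‖S.ev (D x) t‖ ≤ 1 ∧
      (S.ev (D x) t ≠ 0 → ∃ n ∈ Mx x, n ∉ F0 ∧ t ∈ b n) := by
    intro x hx t
    have h1 : S.ev (D x) t = (⋃ n ∈ Mx x, b n).indicator (fun _ => (1 : ℂ)) t -
        ∑ n ∈ F0.filter (· ∈ Mx x), (b n).indicator (fun _ => (1 : ℂ)) t := by
      rw [hD]
      simp only [map_sub, map_sum, Pi.sub_apply, Finset.sum_apply, hE x hx, he]
    by_cases hc : t ∈ ⋃ n ∈ Mx x, b n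
    · simp only [Set.mem_iUnion] at hc
      obtain ⟨n0, hn0, htn⟩ := hc
      have hc' : t ∈ ⋃ n ∈ Mx x, b n := by
        simp only [Set.mem_iUnion]
        exact ⟨n0, hn0, htn⟩
      have hother : ∀ n, n ≠ n0 → t ∉ b n := fun n hn h =>
        (Set.disjoint_left.1 (hd n n0 hn)) h htn
      by_cases hF : n0 ∈ F0
      · have h2 : S.ev (D x) t = 0 := by
          rw [h1, indicator_of_mem hc',
            Finset.sum_eq_single_of_mem n0 (Finset.mem_filter.2 ⟨hF, hn0⟩), indicator_of_mem htn,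
            sub_self]
          intro n _ hn
          exact indicator_of_notMem (hother n hn) _
        rw [h2]
        exact ⟨by simp, fun h => absurd rfl h⟩
      · have h2 : S.ev (D x) t = 1 := by
          rw [h1, indicator_of_mem hc', Finset.sum_eq_zero, sub_zero]
          intro n hn
          refine indicator_of_notMem (hother n ?_) _
          rintro rfl
          exact hF (Finset.mem_filter.1 hn).1
        rw [h2]
        exact ⟨by simp, fun _ => ⟨n0, hn0, hF, htn⟩⟩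
    · have h2 : S.ev (D x) t = 0 := by
        rw [h1, indicator_of_notMem hc, Finset.sum_eq_zero, sub_zero]
        intro n hn
        refine indicator_of_notMem (fun h => hc ?_) _
        simp only [Set.mem_iUnion]
        exact ⟨n, (Finset.mem_filter.1 hn).2, h⟩
      rw [h2]
      exact ⟨by simp, fun h => absurd rfl h⟩
  have hDsum : ∑ x ∈ X, ‖f (D x)‖ ≤ ‖f‖ := by
    refine sum_disj S f X D (fun x hx t => (hDev x hx t).1) ?_
    intro x hx y hy hxy t
    by_contra hcon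
    push Not at hcon
    obtain ⟨n, hn, hnF, htn⟩ := (hDev x hx t).2 hcon.1
    obtain ⟨m, hm, hmF, htm⟩ := (hDev y hy t).2 hcon.2
    have hnm : n = m := by
      by_contra hne
      exact (Set.disjoint_left.1 (hd n m hne)) htn htm
    subst hnm
    exact hnF (hF0pair x hx y hy hxy n hn hm)
  have hrk : ∀ x ∈ X, ‖f (E x) - ∑' n, (Mx x).indicator (fun n => f (e n)) n‖ ≤
      ‖f (D x)‖ + η := by
    intro x hx
    have hind : ∀ G : Set ℕ, Summable (G.indicator (fun n => f (e n))) := fun G => hs.indicator G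
    have h1 : ∑' n, (Mx x).indicator (fun n => f (e n)) n =
        ∑ n ∈ F0.filter (· ∈ Mx x), f (e n) + ∑' n, (Mx x \ F0).indicator (fun n => f (e n)) n := by
      have h2 : ∀ n, (Mx x).indicator (fun n => f (e n)) n =
          (Mx x ∩ F0).indicator (fun n => f (e n)) n +
          (Mx x \ F0).indicator (fun n => f (e n)) n := by
        intro n
        by_cases hn : n ∈ Mx x <;> by_cases hn' : n ∈ F0 <;> simp [indicator, hn, hn']
      rw [tsum_congr h2, (hind _).tsum_add (hind _)]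
      congr 1
      rw [tsum_eq_sum (s := F0.filter (· ∈ Mx x))]
      · refine Finset.sum_congr rfl fun n hn => ?_
        rw [Finset.mem_filter] at hn
        exact indicator_of_mem (show n ∈ Mx x ∩ F0 from ⟨hn.2, hn.1⟩) _
      · intro n hn
        refine indicator_of_notMem (fun h => hn ?_) _
        exact Finset.mem_filter.2 ⟨h.2, h.1⟩
    have h3 : f (D x) = f (E x) - ∑ n ∈ F0.filter (· ∈ Mx x), f (e n) := by
      rw [hD]
      simp only [map_sub, map_sum]
    have h4 : f (E x) - ∑' n, (Mx x).indicator (fun n => f (e n)) n =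
        f (D x) - ∑' n, (Mx x \ F0).indicator (fun n => f (e n)) n := by
      rw [h1, h3]
      ring
    have h5 : ‖∑' n, (Mx x \ F0).indicator (fun n => f (e n)) n‖ ≤ η := by
      refine (norm_tsum_le_tsum_norm (hind _).norm).trans ?_
      refine Real.tsum_le_of_sum_le (fun _ => norm_nonneg _) fun G => ?_
      have h6 : ∑ n ∈ G, ‖(Mx x \ F0).indicator (fun n => f (e n)) n‖ ≤
          ∑ n ∈ G \ F0, ‖f (e n)‖ := by
        rw [← Finset.sum_filter_add_sum_filter_not G (· ∈ F0)]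
        have h7 : ∑ n ∈ G.filter (· ∈ F0), ‖(Mx x \ F0).indicator (fun n => f (e n)) n‖ = 0 := by
          refine Finset.sum_eq_zero fun n hn => ?_
          rw [indicator_of_notMem (fun h => h.2 (Finset.mem_filter.1 hn).2), norm_zero]
        rw [h7, zero_add, ← Finset.filter_notMem_eq_sdiff]
        refine Finset.sum_le_sum fun n _ => ?_
        exact norm_indicator_le_norm_self _ _
      refine h6.trans ?_
      have h8 := hs' (G \ F0) (by
        rw [Finset.disjoint_left]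
        intro n hn hns
        exact (Finset.mem_sdiff.1 hn).2 (Finset.mem_union_right _ hns))
      exact (le_abs_self _).trans h8.le
    rw [h4]
    exact (norm_sub_le _ _).trans (by linarith)
  calc ∑ x ∈ X, ‖f (E x) - ∑' n, (Mx x).indicator (fun n => f (e n)) n‖
      ≤ ∑ x ∈ X, (‖f (D x)‖ + η) := Finset.sum_le_sum hrk
    _ = ∑ x ∈ X, ‖f (D x)‖ + X.card * η := by
        rw [Finset.sum_add_distrib, Finset.sum_const, nsmul_eq_mul]
    _ ≤ ‖f‖ + ε := by
        refine add_le_add hDsum ?_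
        rw [hη, mul_div_assoc', div_le_iff₀ (by positivity)]
        nlinarith

theorem sum_ind (S : BFS Ω A) (f : A →L[ℂ] ℂ) (b : ℕ → Set Ω) (e : ℕ → A)
    (hd : ∀ m n, m ≠ n → Disjoint (b m) (b n))
    (he : ∀ n t, S.ev (e n) t = (b n).indicator (fun _ => (1 : ℂ)) t) (F : Finset ℕ) :
    ∑ n ∈ F, ‖f (e n)‖ ≤ ‖f‖ := by
  refine sum_disj S f F e ?_ ?_
  · intro i _ t
    rw [he]
    by_cases h : t ∈ b i
    · rw [indicator_of_mem h, norm_one]
    · rw [indicator_of_notMem h, norm_zero]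
      exact zero_le_one
  · intro i _ j _ hij t
    rw [he, he]
    by_cases h : t ∈ b i
    · right
      exact indicator_of_notMem (fun h' => (Set.disjoint_left.1 (hd i j hij)) h h') _
    · left
      exact indicator_of_notMem h _

end Core

theorem core {Ω ι : Type} [MeasurableSpace Ω] [Countable ι] (P Q : ι → Ultrafilter Ω)
    (S : BFS Ω (PA P Q)) (hB : S.B = PB P Q)
    (f : ℕ → (PA P Q →L[ℂ] ℂ)) (hf : ∀ y, Tendsto (fun n => f n y) atTop (𝓝 0))
    (b : ℕ → Set Ω) (e : ℕ → PA P Q)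
    (hb : ∀ n, b n ∈ S.B) (hd : ∀ m n, m ≠ n → Disjoint (b m) (b n))
    (he : ∀ n t, S.ev (e n) t = (b n).indicator (fun _ => (1 : ℂ)) t) (ε : ℝ) (hε : 0 < ε)
    (h1 : ∀ k, ε ≤ ‖f k (e k)‖)
    (h2 : ∀ k (F : Finset ℕ), k ∉ F → ∑ j ∈ F, ‖f k (e j)‖ ≤ ε / 2) : False := by
  classical
  have hsub : ∀ F : Ultrafilter Ω,
      {x : ℕ → Bool | (⋃ n ∈ Mx x, b n) ∈ F ∧ ∀ n ∈ Mx x, b n ∉ F}.Subsingleton := by
    rintro F x ⟨hx, hx'⟩ y ⟨hy, hy'⟩
    by_contra hxy
    have hfin := Mx_ad x y hxy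
    have hint : (⋃ n ∈ Mx x, b n) ∩ (⋃ n ∈ Mx y, b n) ∈ F := Filter.inter_mem hx hy
    have hsubs : (⋃ n ∈ Mx x, b n) ∩ (⋃ n ∈ Mx y, b n) ⊆ ⋃ n ∈ Mx x ∩ Mx y, b n := by
      rintro t ⟨ht1, ht2⟩
      simp only [mem_iUnion] at ht1 ht2 ⊢
      obtain ⟨n, hn, htn⟩ := ht1
      obtain ⟨m, hm, htm⟩ := ht2
      have hnm : n = m := by
        by_contra hne
        exact (Set.disjoint_left.1 (hd n m hne)) htn htm
      subst hnm
      exact ⟨n, ⟨hn, hm⟩, htn⟩
    have h3 : (⋃ n ∈ Mx x ∩ Mx y, b n) ∈ F := Filter.mem_of_superset hint hsubs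
    rw [Ultrafilter.finite_biUnion_mem_iff hfin] at h3
    obtain ⟨n, hn, h4⟩ := h3
    exact hx' n hn.1 h4
  set B1 : Set (ℕ → Bool) := ⋃ i, ({x | (⋃ n ∈ Mx x, b n) ∈ P i ∧ ∀ n ∈ Mx x, b n ∉ P i} ∪
    {x | (⋃ n ∈ Mx x, b n) ∈ Q i ∧ ∀ n ∈ Mx x, b n ∉ Q i}) with hB1def
  have hB1 : B1.Countable :=
    Set.countable_iUnion fun i => ((hsub (P i)).finite.countable.union (hsub (Q i)).finite.countable)
  have hbB : ∀ n, b n ∈ PB P Q := fun n => hB ▸ hb n
  have hmem : ∀ x ∉ B1, (⋃ n ∈ Mx x, b n) ∈ S.B := by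
    intro x hx
    rw [hB]
    refine ⟨MeasurableSet.biUnion (Set.to_countable _) fun n _ => (hbB n).1, fun i => ?_⟩
    have hxi : x ∉ ({x | (⋃ n ∈ Mx x, b n) ∈ P i ∧ ∀ n ∈ Mx x, b n ∉ P i} ∪
        {x | (⋃ n ∈ Mx x, b n) ∈ Q i ∧ ∀ n ∈ Mx x, b n ∉ Q i}) := fun h =>
      hx (Set.mem_iUnion.2 ⟨i, h⟩)
    have hiff : ∀ F : Ultrafilter Ω, x ∉ {x | (⋃ n ∈ Mx x, b n) ∈ F ∧ ∀ n ∈ Mx x, b n ∉ F} →
        ((⋃ n ∈ Mx x, b n) ∈ F ↔ ∃ n ∈ Mx x, b n ∈ F) := by
      intro F hF
      constructor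
      · intro h
        by_contra hcon
        push Not at hcon
        exact hF ⟨h, hcon⟩
      · rintro ⟨n, hn, h⟩
        exact Filter.mem_of_superset h (Set.subset_biUnion_of_mem (u := b) hn)
    rw [hiff (P i) (fun h => hxi (Or.inl h)), hiff (Q i) (fun h => hxi (Or.inr h))]
    constructor
    · rintro ⟨n, hn, h⟩
      exact ⟨n, hn, ((hbB n).2 i).1 h⟩
    · rintro ⟨n, hn, h⟩
      exact ⟨n, hn, ((hbB n).2 i).2 h⟩
  have hE : ∀ x, ∃ E : PA P Q, x ∉ B1 →
      ∀ t, S.ev E t = (⋃ n ∈ Mx x, b n).indicator (fun _ => (1 : ℂ)) t := by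
    intro x
    by_cases hx : x ∈ B1
    · exact ⟨0, fun h => absurd hx h⟩
    · obtain ⟨o, ho⟩ := S.one_ex
      obtain ⟨E, hE⟩ := S.cut_ex _ (hmem x hx) o
      refine ⟨E, fun _ t => ?_⟩
      rw [hE]
      by_cases ht : t ∈ ⋃ n ∈ Mx x, b n
      · rw [indicator_of_mem ht, indicator_of_mem ht, ho]
      · rw [indicator_of_notMem ht, indicator_of_notMem ht]
  choose E hE using hE
  set r : ℕ → (ℕ → Bool) → ℝ := fun k x =>
    ‖f k (E x) - ∑' n, (Mx x).indicator (fun n => f k (e n)) n‖ with hr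
  have hfin : ∀ k (δ : ℝ), 0 < δ → {x | x ∉ B1 ∧ δ ≤ r k x}.Finite := by
    intro k δ hδ
    by_contra hinf
    obtain ⟨X, hX, hcard⟩ := Set.Infinite.exists_subset_card_eq hinf (⌊‖f k‖ / δ⌋₊ + 1)
    have h3 : ∑ x ∈ X, r k x ≤ ‖f k‖ :=
      defect S (f k) b e hd he E X (fun x hx => hE x (hX hx).1)
    have h4 : X.card • δ ≤ ∑ x ∈ X, r k x :=
      Finset.card_nsmul_le_sum X _ δ (fun x hx => (hX hx).2)
    rw [hcard, nsmul_eq_mul] at h4
    have h5 : ‖f k‖ / δ < ⌊‖f k‖ / δ⌋₊ + 1 := Nat.lt_floor_add_one _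
    rw [div_lt_iff₀ hδ] at h5
    push_cast at h4
    linarith
  have hcount : (B1 ∪ ⋃ k : ℕ, ⋃ m : ℕ, {x | x ∉ B1 ∧ 1 / ((m : ℝ) + 1) ≤ r k x}).Countable :=
    hB1.union (Set.countable_iUnion fun k => Set.countable_iUnion fun m =>
      (hfin k _ (by positivity)).countable)
  have hne : ∃ x, x ∉ (B1 ∪ ⋃ k : ℕ, ⋃ m : ℕ, {x | x ∉ B1 ∧ 1 / ((m : ℝ) + 1) ≤ r k x}) := by
    by_contra hall
    push Not at hall
    exact Set.not_countable_univ (α := ℕ → Bool) (hcount.mono fun x _ => hall x)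
  obtain ⟨x, hx⟩ := hne
  have hx1 : x ∉ B1 := fun h => hx (Or.inl h)
  have hx2 : ∀ k, r k x = 0 := by
    intro k
    by_contra hne
    have hpos : 0 < r k x := lt_of_le_of_ne (norm_nonneg _) (Ne.symm hne)
    obtain ⟨m, hm⟩ := exists_nat_one_div_lt hpos
    exact hx (Or.inr (Set.mem_iUnion.2 ⟨k, Set.mem_iUnion.2 ⟨m, hx1, hm.le⟩⟩))
  have h3 := (hf (E x)).norm
  rw [norm_zero] at h3
  have h4 : ∀ᶠ k in atTop, ‖f k (E x)‖ < ε / 2 := h3.eventually_lt_const (by positivity)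
  obtain ⟨k0, hk0⟩ := eventually_atTop.1 h4
  obtain ⟨k, hk, hkk⟩ := (Mx_inf x).exists_gt k0
  have h5 := hk0 k hkk.le
  have h6 : f k (E x) = ∑' n, (Mx x).indicator (fun n => f k (e n)) n :=
    sub_eq_zero.1 (norm_eq_zero.1 (hx2 k))
  have hsn : Summable (fun n => ‖f k (e n)‖) :=
    summable_of_sum_le (fun _ => norm_nonneg _) (sum_ind S (f k) b e hd he)
  have hs : Summable (fun n => f k (e n)) := hsn.of_norm
  have h7 : ∑' n, (Mx x).indicator (fun n => f k (e n)) n =
      f k (e k) + ∑' n, (Mx x \ {k}).indicator (fun n => f k (e n)) n := by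
    have h8 : ∀ n, (Mx x).indicator (fun n => f k (e n)) n =
        (if n = k then f k (e k) else 0) + (Mx x \ {k}).indicator (fun n => f k (e n)) n := by
      intro n
      by_cases hn : n = k
      · subst hn
        simp [indicator, hk]
      · by_cases hn' : n ∈ Mx x <;> simp [indicator, hn, hn']
    rw [tsum_congr h8, Summable.tsum_add _ (hs.indicator _), tsum_ite_eq]
    exact (hasSum_ite_eq k (f k (e k))).summable
  have h9 : ‖∑' n, (Mx x \ {k}).indicator (fun n => f k (e n)) n‖ ≤ ε / 2 := by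
    refine (norm_tsum_le_tsum_norm (hs.indicator _).norm).trans ?_
    refine Real.tsum_le_of_sum_le (fun _ => norm_nonneg _) fun G => ?_
    have h10 : ∑ n ∈ G, ‖(Mx x \ {k}).indicator (fun n => f k (e n)) n‖ ≤
        ∑ n ∈ G.erase k, ‖f k (e n)‖ := by
      rw [← Finset.sum_filter_add_sum_filter_not G (· = k)]
      have h11 : ∑ n ∈ G.filter (· = k), ‖(Mx x \ {k}).indicator (fun n => f k (e n)) n‖ = 0 := by
        refine Finset.sum_eq_zero fun n hn => ?_
        rw [indicator_of_notMem (fun h => h.2 (Finset.mem_filter.1 hn).2), norm_zero]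
      rw [h11, zero_add, ← Finset.filter_ne' G k]
      refine Finset.sum_le_sum fun n _ => ?_
      exact norm_indicator_le_norm_self _ _
    exact h10.trans (h2 k _ (Finset.notMem_erase k G))
  have h12 := h1 k
  rw [h6, h7] at h5
  have h13 : ‖f k (e k)‖ ≤ ‖f k (e k) + ∑' n, (Mx x \ {k}).indicator (fun n => f k (e n)) n‖ +
      ‖∑' n, (Mx x \ {k}).indicator (fun n => f k (e n)) n‖ := by
    have := norm_sub_le (f k (e k) + ∑' n, (Mx x \ {k}).indicator (fun n => f k (e n)) n)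
      (∑' n, (Mx x \ {k}).indicator (fun n => f k (e n)) n)
    rwa [add_sub_cancel_right] at this
  linarith

/-- GZ -/
theorem gz : GzStmt := by
  intro Ω ι _ _ P Q S hB _ f hf b e hb hd he
  by_contra hcon
  rw [Metric.tendsto_atTop] at hcon
  push Not at hcon
  obtain ⟨ε, hε, hN⟩ := hcon
  have hNinf : {n | ε ≤ ‖f n (e n)‖}.Infinite := by
    refine Set.infinite_of_forall_exists_gt fun n => ?_
    obtain ⟨m, hm, h⟩ := hN (n + 1)
    refine ⟨m, ?_, by omega⟩
    rwa [dist_zero_right] at h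
  obtain ⟨κ, hκ, hκN, hκs⟩ := hump (fun k n => ‖f k (e n)‖) (fun _ _ => norm_nonneg _)
    (fun k => ‖f k‖) (fun k F => sum_ind S (f k) b e hd he F)
    (fun n => by simpa using (hf (e n)).norm) _ hNinf ε hε
  exact core P Q S hB (fun k => f (κ k)) (fun y => (hf y).comp hκ.tendsto_atTop)
    (fun k => b (κ k)) (fun k => e (κ k)) (fun n => hb _)
    (fun m n hmn => hd _ _ (fun h => hmn (hκ.injective h))) (fun n t => he _ t) ε hε hκN hκs

end Pool.Agent.Helper83_DPB.H38
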