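import Pool.Agent.Helper83_DPB.Stmts

/-!
Squad DPB (MP_e2cf1f_an), module SS: strict singularity of the quotient map.
-/

open Filter Topology Set

namespace Pool.Agent.Helper83_DPB.H38

theorem phase' (z : ℂ) : ∃ θ : ℂ, ‖θ‖ ≤ 1 ∧ θ * z = ((‖z‖ : ℝ) : ℂ) := by
  by_cases hz : z = 0
  · exact ⟨0, by simp, by simp [hz]⟩
  · have hn : ‖z‖ ≠ 0 := norm_ne_zero_iff.2 hz
    refine ⟨((‖z‖ : ℝ) : ℂ) / z, ?_, ?_⟩
    · rw [norm_div, Complex.norm_real, norm_norm, div_self hn]
    · exact div_mul_cancel₀ _ hz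

theorem uu_lin : ∃ L : VV →ₗ[ℂ] LI Pt, ∀ v, UU v = L v :=
  ⟨(Finsupp.linearCombination ℂ U1).coprod (Finsupp.linearCombination ℂ U2), fun v => by
    simp [UU, Finsupp.linearCombination_apply]⟩

/-- the sum of a finite family with at most one nonzero member -/
theorem one_term {κ : Type*} (G : Finset κ) (z : κ → ℂ)
    (h : ∀ i ∈ G, ∀ j ∈ G, z i ≠ 0 → z j ≠ 0 → i = j) :
    (∑ i ∈ G, z i = 0 ∨ ∃ i ∈ G, ∑ i ∈ G, z i = z i) ∧ ‖∑ i ∈ G, z i‖ ^ 2 ≤ ∑ i ∈ G, ‖z i‖ ^ 2 := by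
  classical
  by_cases hex : ∃ i ∈ G, z i ≠ 0
  · obtain ⟨i, hi, hne⟩ := hex
    have h1 : ∑ j ∈ G, z j = z i := by
      refine Finset.sum_eq_single_of_mem i hi fun j hj hji => ?_
      by_contra hz
      exact hji (h j hj i hi hz hne)
    refine ⟨Or.inr ⟨i, hi, h1⟩, ?_⟩
    rw [h1]
    exact Finset.single_le_sum (f := fun j => ‖z j‖ ^ 2) (fun j _ => by positivity) hi
  · push Not at hex
    have h1 : ∑ j ∈ G, z j = 0 := Finset.sum_eq_zero hex
    refine ⟨Or.inl h1, ?_⟩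
    rw [h1]
    simp only [norm_zero, ne_eq, OfNat.ofNat_ne_zero, not_false_eq_true, zero_pow]
    exact Finset.sum_nonneg fun j _ => by positivity

theorem sup_unique (m : ℕ → ℕ) (hm : StrictMono m) (j j' n : ℕ)
    (h : m j ≤ n ∧ n < m (j + 1)) (h' : m j' ≤ n ∧ n < m (j' + 1)) : j = j' := by
  by_contra hne
  rcases Nat.lt_or_gt_of_ne hne with hlt | hlt
  · have := hm.monotone hlt
    simp only [Nat.succ_eq_add_one] at this
    omega
  · have := hm.monotone hlt
    simp only [Nat.succ_eq_add_one] at this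
    omega

theorem bd_sum {κ : Type*} (v : ℕ → VV) (m : ℕ → ℕ) (hm : StrictMono m)
    (hv : ∀ j, SupIn (v j) (m j) (m (j + 1))) (C : ℝ) (hC : ∀ j, Bd (v j) C)
    (G : Finset κ) (J : κ → ℕ) (hJ : Function.Injective J) (α : κ → ℂ) (R : ℝ) (hR : 0 ≤ R)
    (hα : ∑ i ∈ G, ‖α i‖ ^ 2 ≤ R ^ 2) : Bd (∑ i ∈ G, α i • v (J i)) (C * R) := by
  classical
  have hC0 : 0 ≤ C := (hC 0).1
  have hαi : ∀ i ∈ G, ‖α i‖ ≤ R := by
    intro i hi
    have h1 : ‖α i‖ ^ 2 ≤ R ^ 2 :=
      (Finset.single_le_sum (f := fun j => ‖α j‖ ^ 2) (fun j _ => by positivity) hi).trans hα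
    exact (pow_le_pow_iff_left₀ (norm_nonneg _) hR two_ne_zero).1 h1
  have e1 : ∀ n, (∑ i ∈ G, α i • v (J i)).1 n = ∑ i ∈ G, α i * (v (J i)).1 n := by
    intro n
    rw [Prod.fst_sum, Finsupp.finsetSum_apply]
    rfl
  have e2 : ∀ n, (∑ i ∈ G, α i • v (J i)).2 n = ∑ i ∈ G, α i * (v (J i)).2 n := by
    intro n
    rw [Prod.snd_sum, Finsupp.finsetSum_apply]
    rfl
  have u1 : ∀ n, ∀ i ∈ G, ∀ j ∈ G, α i * (v (J i)).1 n ≠ 0 → α j * (v (J j)).1 n ≠ 0 → i = j := by
    intro n i _ j _ hi hj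
    exact hJ (sup_unique m hm _ _ n ((hv (J i)).1 n (right_ne_zero_of_mul hi))
      ((hv (J j)).1 n (right_ne_zero_of_mul hj)))
  have u2 : ∀ n, ∀ i ∈ G, ∀ j ∈ G, α i * (v (J i)).2 n ≠ 0 → α j * (v (J j)).2 n ≠ 0 → i = j := by
    intro n i _ j _ hi hj
    exact hJ (sup_unique m hm _ _ n ((hv (J i)).2 n (right_ne_zero_of_mul hi))
      ((hv (J j)).2 n (right_ne_zero_of_mul hj)))
  refine ⟨by positivity, ?_, ?_⟩
  · set V := ∑ i ∈ G, α i • v (J i) with hV
    have h1 : ∑ n ∈ V.1.support, ‖V.1 n‖ ^ 2 ≤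
        ∑ n ∈ V.1.support, ∑ i ∈ G, ‖α i‖ ^ 2 * ‖(v (J i)).1 n‖ ^ 2 := by
      refine Finset.sum_le_sum fun n _ => ?_
      rw [e1]
      refine (one_term G _ (u1 n)).2.trans (le_of_eq ?_)
      refine Finset.sum_congr rfl fun i _ => ?_
      rw [norm_mul, mul_pow]
    refine h1.trans ?_
    rw [Finset.sum_comm]
    have h2 : ∀ i ∈ G, ∑ n ∈ V.1.support, ‖α i‖ ^ 2 * ‖(v (J i)).1 n‖ ^ 2 ≤ ‖α i‖ ^ 2 * C ^ 2 := by
      intro i _
      rw [← Finset.mul_sum]
      refine mul_le_mul_of_nonneg_left ?_ (by positivity)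
      refine le_trans ?_ (hC (J i)).2.1
      have h3 : ∑ n ∈ V.1.support, ‖(v (J i)).1 n‖ ^ 2 ≤
          ∑ n ∈ V.1.support ∪ (v (J i)).1.support, ‖(v (J i)).1 n‖ ^ 2 :=
        Finset.sum_le_sum_of_subset_of_nonneg Finset.subset_union_left
          (fun _ _ _ => by positivity)
      refine h3.trans (le_of_eq ?_)
      symm
      refine Finset.sum_subset Finset.subset_union_right ?_
      intro n _ hn
      rw [Finsupp.notMem_support_iff] at hn
      simp [hn]
    refine (Finset.sum_le_sum h2).trans ?_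
    rw [← Finset.sum_mul, mul_pow, mul_comm]
    exact mul_le_mul_of_nonneg_left hα (by positivity)
  · intro n
    rw [e2]
    rcases (one_term G _ (u2 n)).1 with h | ⟨i, hi, h⟩
    · rw [h, norm_zero]
      positivity
    · rw [h, norm_mul, mul_comm]
      exact mul_le_mul ((hC (J i)).2.2 n) (hαi i hi) (norm_nonneg _) hC0

/-- SS -/
theorem ss (hBlk : BlkStmt) (hFlat : FlatStmt) (hNrm : NrmStmt) (hBc : BcStmt) (hJmp : JmpStmt)
    (hYy : YyStmt) (hXm : XmStmt) : SsStmt := by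
  classical
  intro Z hZ ε hε
  by_contra hcon
  push Not at hcon
  have hhom : ∀ w ∈ Z, ∀ a ∈ AA, ε * ‖w‖ ≤ ‖(w : LI Pt) - a‖ := by
    intro w hw a ha
    by_cases h0 : w = 0
    · rw [h0, norm_zero, mul_zero]
      exact norm_nonneg _
    have hn : 0 < ‖w‖ := norm_pos_iff.2 h0
    have h1 := hcon (((‖w‖⁻¹ : ℝ) : ℂ) • w) (Z.smul_mem _ hw) (by
      rw [norm_smul, Complex.norm_real, norm_inv, norm_norm, inv_mul_cancel₀ hn.ne'])
      (((‖w‖⁻¹ : ℝ) : ℂ) • (⟨a, ha⟩ : AA))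
    have h2 : ((‖w‖⁻¹ : ℝ) : ℂ) • w - JJ (((‖w‖⁻¹ : ℝ) : ℂ) • (⟨a, ha⟩ : AA)) =
        ((‖w‖⁻¹ : ℝ) : ℂ) • (w - JJ (⟨a, ha⟩ : AA)) := by
      rw [map_smul, smul_sub]
    rw [h2, norm_smul, Complex.norm_real, norm_inv, norm_norm] at h1
    have h3 : ‖w - JJ (⟨a, ha⟩ : AA)‖ = ‖(w : LI Pt) - a‖ := rfl
    rw [h3] at h1
    rw [← div_eq_inv_mul, le_div_iff₀ hn] at h1
    exact h1
  obtain ⟨L, hL⟩ := uu_lin
  set η : ℝ := min (ε / 256) (1 / 4) with hη
  have hηpos : 0 < η := lt_min (by positivity) (by norm_num)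
  have hη1 : η ≤ ε / 256 := min_le_left _ _
  have hη2 : η ≤ 1 / 4 := min_le_right _ _
  obtain ⟨w, v, a, m, hm, hwZ, hw1, haA, hv, herr⟩ := hBlk Z hZ η hηpos
  set c : ℝ := ε / 2 with hc
  have hcpos : 0 < c := by positivity
  have hhalf : ∀ j : ℕ, η * (1 / 2 : ℝ) ^ j ≤ η := by
    intro j
    have : (1 / 2 : ℝ) ^ j ≤ 1 := pow_le_one₀ (by norm_num) (by norm_num)
    nlinarith
  -- the vectors are not small
  have hnbd : ∀ j, ¬ Bd (v j) c := by
    intro j hbd
    obtain ⟨a', ha', hle⟩ := hYy (v j) c hbd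
    have h1 := hhom (w j) (hwZ j) (a j + a') (AA.add_mem (haA j) ha')
    rw [hw1, mul_one] at h1
    have h2 : (w j : LI Pt) - (a j + a') =
        ((w j : LI Pt) - a j - UU (v j)) + (UU (v j) - a') := by abel
    rw [h2] at h1
    have h3 := (norm_add_le ((w j : LI Pt) - a j - UU (v j)) (UU (v j) - a')).trans
      (add_le_add ((herr j).trans (hhalf j)) hle)
    linarith
  -- jumps vanish on AA
  have hjA : ∀ b ∈ AA, ∀ σ s, isBlk s → LU (qF (σ ++ [s])) b = LU (pF σ) b := by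
    intro b hb σ s hs
    exact (hb.2 (σ, ⟨s, hs⟩)).symm
  -- the vectors are bounded
  have hbd12 : ∀ j, Bd (v j) 12 := by
    intro j
    have h1 : ∀ s, isBlk s → ‖prg 0 s (v j)‖ ≤ 4 := by
      intro s hs
      have h2 := hJmp [] s hs (v j)
      have h3 : htL [] = 0 := rfl
      rw [h3] at h2
      rw [← h2]
      set g : LI Pt := a j + UU (v j) with hg
      have h4 : UU (v j) = g - a j := by rw [hg]; abel
      have h5 : LU (qF ([] ++ [s])) (UU (v j)) - LU (pF []) (UU (v j)) =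
          LU (qF ([] ++ [s])) g - LU (pF []) g := by
        rw [h4, map_sub, map_sub, hjA (a j) (haA j) [] s hs]
        ring
      rw [h5]
      have h6 : ‖g‖ ≤ 2 := by
        have h7 : g = (w j : LI Pt) - ((w j : LI Pt) - a j - UU (v j)) := by
          rw [hg]; abel
        rw [h7]
        refine (norm_sub_le _ _).trans ?_
        have h8 : ‖(w j : LI Pt)‖ = 1 := hw1 j
        rw [h8]
        have := (herr j).trans (hhalf j)
        linarith
      refine (norm_sub_le _ _).trans ?_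
      have h9 := LU_norm (qF ([] ++ [s])) g
      have h10 := LU_norm (pF []) g
      linarith
    have h2 := hNrm (v j) 4 (by norm_num) h1
    norm_num at h2
    exact h2
  obtain ⟨F, t, hFne, hFlt, ht0, ht1, htc, hflat⟩ := hFlat v m c hcpos hm hv ⟨12, hbd12⟩ hnbd
  -- new sequences
  set w' : ℕ → XX := fun i => ∑ j ∈ F i, (t i : ℂ) • w j with hw'
  set a' : ℕ → LI Pt := fun i => ∑ j ∈ F i, (t i : ℂ) • a j with ha'
  set v' : ℕ → VV := fun i => ∑ j ∈ F i, (t i : ℂ) • v j with hv'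
  have hw'Z : ∀ i, w' i ∈ Z := fun i => Z.sum_mem fun j _ => Z.smul_mem _ (hwZ j)
  have ha'A : ∀ i, a' i ∈ AA := fun i => AA.sum_mem fun j _ => AA.smul_mem _ (haA j)
  -- order of the blocks
  have hFge : ∀ i, ∀ j ∈ F i, i ≤ j := by
    intro i
    induction i with
    | zero => exact fun j _ => Nat.zero_le j
    | succ i ih =>
      intro j hj
      obtain ⟨j0, hj0⟩ := hFne i
      have h1 := ih j0 hj0
      have h2 := hFlt i j0 hj0 j hj
      omega
  set M : ℕ → ℕ := fun i => m ((F i).min' (hFne i)) with hM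
  have hMmono : StrictMono M := by
    refine strictMono_nat_of_lt_succ fun i => hm ?_
    exact hFlt i _ (Finset.min'_mem _ _) _ (Finset.min'_mem _ _)
  have hv'S : ∀ i, SupIn (v' i) (M i) (M (i + 1)) := by
    intro i
    have key : ∀ j ∈ F i, ∀ n, m j ≤ n ∧ n < m (j + 1) → M i ≤ n ∧ n < M (i + 1) := by
      intro j hj n hn
      constructor
      · exact (hm.monotone (Finset.min'_le _ _ hj)).trans hn.1
      · refine hn.2.trans_le (hm.monotone ?_)
        exact hFlt i j hj _ (Finset.min'_mem _ _)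
    constructor
    · intro n hn
      have h1 : (v' i).1 n = ∑ j ∈ F i, (t i : ℂ) * (v j).1 n := by
        rw [hv']
        simp only
        rw [Prod.fst_sum, Finsupp.finsetSum_apply]
        rfl
      rw [h1] at hn
      obtain ⟨j, hj, hne⟩ := Finset.exists_ne_zero_of_sum_ne_zero hn
      exact key j hj n ((hv j).1 n (right_ne_zero_of_mul hne))
    · intro n hn
      have h1 : (v' i).2 n = ∑ j ∈ F i, (t i : ℂ) * (v j).2 n := by
        rw [hv']
        simp only
        rw [Prod.snd_sum, Finsupp.finsetSum_apply]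
        rfl
      rw [h1] at hn
      obtain ⟨j, hj, hne⟩ := Finset.exists_ne_zero_of_sum_ne_zero hn
      exact key j hj n ((hv j).2 n (right_ne_zero_of_mul hne))
  have hv'bd : ∀ i, Bd (v' i) 12 := by
    intro i
    have h1 := bd_sum v m hm hv 12 hbd12 (F i) id Function.injective_id (fun _ => (t i : ℂ)) 1
      zero_le_one (by
        rw [Finset.sum_const, nsmul_eq_mul, Complex.norm_real, Real.norm_of_nonneg (ht0 i).le,
          one_pow, mul_comm]
        exact htc i)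
    rw [mul_one] at h1
    exact h1
  -- errors
  have herr' : ∀ i, ‖(w' i : LI Pt) - a' i - UU (v' i)‖ ≤ 2 * η * (1 / 2) ^ i := by
    intro i
    have h1 : (w' i : LI Pt) - a' i - UU (v' i) =
        ∑ j ∈ F i, (t i : ℂ) • ((w j : LI Pt) - a j - UU (v j)) := by
      have h2 : (w' i : LI Pt) = ∑ j ∈ F i, (t i : ℂ) • (w j : LI Pt) := by
        rw [hw']
        simp only
        rw [Submodule.coe_sum]
        rfl
      rw [h2, hL, hv', ha', map_sum, ← Finset.sum_sub_distrib, ← Finset.sum_sub_distrib]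
      refine Finset.sum_congr rfl fun j _ => ?_
      rw [map_smul, hL, smul_sub, smul_sub]
    rw [h1]
    refine (norm_sum_le _ _).trans ?_
    have h2 : ∀ j ∈ F i, ‖(t i : ℂ) • ((w j : LI Pt) - a j - UU (v j))‖ ≤ η * (1 / 2) ^ j := by
      intro j _
      rw [norm_smul, Complex.norm_real, Real.norm_of_nonneg (ht0 i).le]
      exact (mul_le_of_le_one_left (norm_nonneg _) (ht1 i)).trans (herr j)
    refine (Finset.sum_le_sum h2).trans ?_
    rw [← Finset.mul_sum]
    have h3 : ∑ j ∈ F i, (1 / 2 : ℝ) ^ j ≤ 2 * (1 / 2) ^ i := by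
      have h4 : ∑ j ∈ F i, (1 / 2 : ℝ) ^ j = ∑ k ∈ (F i).image (fun j => j - i), (1 / 2 : ℝ) ^ (k + i) := by
        rw [Finset.sum_image]
        · refine Finset.sum_congr rfl fun j hj => ?_
          rw [Nat.sub_add_cancel (hFge i j hj)]
        · intro x hx y hy hxy
          have := hFge i x hx
          have := hFge i y hy
          simp only at hxy
          omega
      rw [h4]
      have h5 : ∀ k : ℕ, (1 / 2 : ℝ) ^ (k + i) = (1 / 2) ^ i * (1 / 2) ^ k := fun k => by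
        rw [pow_add, mul_comm]
      simp only [h5]
      rw [← Finset.mul_sum, mul_comm]
      refine mul_le_mul_of_nonneg_right ?_ (by positivity)
      have h6 := Summable.sum_le_tsum (f := fun k : ℕ => (1 / 2 : ℝ) ^ k)
        ((F i).image (fun j => j - i)) (fun _ _ => by positivity) summable_geometric_two
      rw [tsum_geometric_two] at h6
      exact h6
    calc η * ∑ j ∈ F i, (1 / 2 : ℝ) ^ j ≤ η * (2 * (1 / 2) ^ i) := by gcongr
      _ = 2 * η * (1 / 2) ^ i := by ring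
  -- jumps of w'
  have hjump : ∀ σ : List Sym, ∃ j0 : ℕ, ∀ j ≥ j0, ∃ s : Sym, isBlk s ∧
      c / 8 ≤ ‖LU (qF (σ ++ [s])) (w' j : LI Pt) - LU (pF σ) (w' j : LI Pt)‖ := by
    intro σ
    obtain ⟨i0, hi0⟩ := hflat (htL σ)
    refine ⟨i0, fun i hi => ?_⟩
    obtain ⟨s, hs, hle⟩ := hi0 i hi
    refine ⟨s, hs, ?_⟩
    have h1 := hJmp σ s hs (v' i)
    have h2 : c / 4 ≤ ‖prg (htL σ) s (v' i)‖ := hle
    rw [← h1] at h2
    set er : LI Pt := (w' i : LI Pt) - a' i - UU (v' i) with her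
    have h3 : (w' i : LI Pt) = er + a' i + UU (v' i) := by rw [her]; abel
    have h4 : LU (qF (σ ++ [s])) (w' i : LI Pt) - LU (pF σ) (w' i : LI Pt) =
        (LU (qF (σ ++ [s])) (UU (v' i)) - LU (pF σ) (UU (v' i))) +
        (LU (qF (σ ++ [s])) er - LU (pF σ) er) := by
      rw [h3]
      simp only [map_add]
      rw [hjA (a' i) (ha'A i) σ s hs]
      ring
    have h5 : ‖LU (qF (σ ++ [s])) er - LU (pF σ) er‖ ≤ 4 * η := by
      refine (norm_sub_le _ _).trans ?_
      have h6 := LU_norm (qF (σ ++ [s])) er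
      have h7 := LU_norm (pF σ) er
      have h8 : ‖er‖ ≤ 2 * η := by
        refine (herr' i).trans ?_
        have h9 := hhalf i
        nlinarith
      linarith
    rw [h4]
    have h6 := norm_sub_le ((LU (qF (σ ++ [s])) (UU (v' i)) - LU (pF σ) (UU (v' i))) +
        (LU (qF (σ ++ [s])) er - LU (pF σ) er)) (LU (qF (σ ++ [s])) er - LU (pF σ) er)
    rw [add_sub_cancel_right] at h6
    have h7 : 4 * η ≤ c / 8 := by rw [hc]; linarith
    linarith
  have hmeas : ∀ j, Measurable ((w' j : LI Pt) : Pt → ℂ) := fun j => hXm.1 _ (w' j).2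
  have hBC := hBc (fun i => (w' i : LI Pt)) (c / 8) (by positivity) hmeas hjump
  -- the final estimate
  have hfinal : ∀ r : ℕ, ε * (r * (c / 24)) ≤ 12 * Real.sqrt r + 1 := by
    intro r
    obtain ⟨J, hJ, x, hx⟩ := hBC r
    choose θ hθ1 hθ2 using phase'
    set τ : Fin r → ℂ := fun i => θ (((w' (J i) : LI Pt) : Pt → ℂ) x) with hτ
    set W : XX := ∑ i, τ i • w' (J i) with hW
    have hWZ : W ∈ Z := Z.sum_mem fun i _ => Z.smul_mem _ (hw'Z _)
    have hWx : ((W : LI Pt) : Pt → ℂ) x =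
        ((∑ i : Fin r, ‖((w' (J i) : LI Pt) : Pt → ℂ) x‖ : ℝ) : ℂ) := by
      have h1 : (W : LI Pt) = ∑ i, τ i • (w' (J i) : LI Pt) := by
        rw [hW, Submodule.coe_sum]
        rfl
      rw [h1, lp.coeFn_sum, Finset.sum_apply]
      push_cast
      refine Finset.sum_congr rfl fun i _ => ?_
      rw [lp.coeFn_smul, Pi.smul_apply, smul_eq_mul]
      exact hθ2 _
    have hWn : (r : ℝ) * (c / 24) ≤ ‖W‖ := by
      have h1 : ‖((W : LI Pt) : Pt → ℂ) x‖ ≤ ‖W‖ := li_bdd (W : LI Pt) x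
      refine le_trans ?_ h1
      rw [hWx, Complex.norm_real, Real.norm_of_nonneg (Finset.sum_nonneg fun _ _ => norm_nonneg _)]
      have h2 : ∀ i ∈ (Finset.univ : Finset (Fin r)), c / 24 ≤
          ‖((w' (J i) : LI Pt) : Pt → ℂ) x‖ := by
        intro i _
        have := hx i
        have h3 : c / 8 / 3 = c / 24 := by ring
        rwa [h3] at this
      have h3 := Finset.card_nsmul_le_sum _ _ _ h2
      rw [nsmul_eq_mul, Finset.card_univ, Fintype.card_fin] at h3
      exact h3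
    have hτ2 : ∑ i : Fin r, ‖τ i‖ ^ 2 ≤ (Real.sqrt r) ^ 2 := by
      rw [Real.sq_sqrt (Nat.cast_nonneg r)]
      have h1 : ∀ i ∈ (Finset.univ : Finset (Fin r)), ‖τ i‖ ^ 2 ≤ 1 := by
        intro i _
        exact pow_le_one₀ (norm_nonneg _) (hθ1 _)
      have h2 := Finset.sum_le_card_nsmul _ _ _ h1
      rw [nsmul_eq_mul, Finset.card_univ, Fintype.card_fin, mul_one] at h2
      exact h2
    have hVbd := bd_sum v' M hMmono hv'S 12 hv'bd Finset.univ J hJ.injective τ (Real.sqrt r)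
      (Real.sqrt_nonneg _) hτ2
    obtain ⟨b, hb, hble⟩ := hYy _ _ hVbd
    have h1 := hhom W hWZ (∑ i, τ i • a' (J i) + b)
      (AA.add_mem (AA.sum_mem fun i _ => AA.smul_mem _ (ha'A _)) hb)
    have h2 : (W : LI Pt) - (∑ i, τ i • a' (J i) + b) =
        ∑ i, τ i • ((w' (J i) : LI Pt) - a' (J i) - UU (v' (J i))) +
        (UU (∑ i, τ i • v' (J i)) - b) := by
      have h3 : (W : LI Pt) = ∑ i, τ i • (w' (J i) : LI Pt) := by
        rw [hW, Submodule.coe_sum]
        rfl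
      have h4 : UU (∑ i, τ i • v' (J i)) = ∑ i, τ i • UU (v' (J i)) := by
        rw [hL, map_sum]
        refine Finset.sum_congr rfl fun i _ => ?_
        rw [map_smul, hL]
      rw [h3, h4]
      simp only [smul_sub, Finset.sum_sub_distrib]
      abel
    rw [h2] at h1
    have h3 : ‖∑ i, τ i • ((w' (J i) : LI Pt) - a' (J i) - UU (v' (J i)))‖ ≤ 1 := by
      refine (norm_sum_le _ _).trans ?_
      have h4 : ∀ i ∈ (Finset.univ : Finset (Fin r)),
          ‖τ i • ((w' (J i) : LI Pt) - a' (J i) - UU (v' (J i)))‖ ≤ 2 * η * (1 / 2) ^ (J i) := by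
        intro i _
        rw [norm_smul]
        exact (mul_le_of_le_one_left (norm_nonneg _) (hθ1 _)).trans (herr' _)
      refine (Finset.sum_le_sum h4).trans ?_
      rw [← Finset.mul_sum]
      have h5 : ∑ i : Fin r, (1 / 2 : ℝ) ^ (J i) ≤ 2 := by
        have h6 : ∑ i : Fin r, (1 / 2 : ℝ) ^ (J i) =
            ∑ k ∈ Finset.univ.image J, (1 / 2 : ℝ) ^ k := by
          rw [Finset.sum_image (fun x _ y _ h => hJ.injective h)]
        rw [h6]
        have h7 := Summable.sum_le_tsum (f := fun k : ℕ => (1 / 2 : ℝ) ^ k)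
          (Finset.univ.image J) (fun _ _ => by positivity) summable_geometric_two
        rw [tsum_geometric_two] at h7
        exact h7
      nlinarith
    have h4 := h1.trans ((norm_add_le _ _).trans (add_le_add h3 hble))
    have h5 : ε * (r * (c / 24)) ≤ ε * ‖W‖ := mul_le_mul_of_nonneg_left hWn hε.le
    linarith
  -- contradiction
  set q : ℝ := ε * (c / 24) with hq
  have hqpos : 0 < q := by positivity
  obtain ⟨k, hk⟩ := exists_nat_gt (13 / q)
  have hk0 : 0 < (k : ℝ) := lt_trans (by positivity) hk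
  have h1 := hfinal (k ^ 2)
  push_cast at h1
  rw [Real.sqrt_sq hk0.le] at h1
  rw [div_lt_iff₀ hqpos] at hk
  have hk1 : (1 : ℝ) ≤ k := by
    have : 0 < k := by exact_mod_cast hk0
    exact_mod_cast this
  have h2 : ε * ((k : ℝ) ^ 2 * (c / 24)) = k * (k * q) := by rw [hq]; ring
  rw [h2] at h1
  nlinarith

end Pool.Agent.Helper83_DPB.H38
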